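import Pool.Agent.K1H95.EO.Stm

/-! # EO-FORM1: elementary facts about the bilinear sums (for helper95, project EO) -/

set_option autoImplicit false

namespace Pool.Agent.K1H4.EO

open Pool.Agent.K1H95.EO

theorem t_TYP : S_TYP := by
  intro I J p k a b
  unfold Bil
  rw [Finsupp.sum_mapDomain_index]
  · refine Finsupp.sum_congr fun x _ => ?_
    rw [Finsupp.sum_mapDomain_index]
    · intro y
      simp
    · intro y m n
      push_cast
      ring
  · intro x
    simp
  · intro x m n
    rw [← Finsupp.sum_add]
    refine Finsupp.sum_congr fun y _ => ?_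
    push_cast
    ring

theorem t_BND : S_BND := by
  intro I k a b C hC h
  unfold Bil nrm Finsupp.sum
  push_cast
  have h1 : |∑ x ∈ a.support, ∑ y ∈ b.support, (a x : ℚ) * (b y : ℚ) * k x y| ≤
      ∑ x ∈ a.support, ∑ y ∈ b.support, C * |(a x : ℚ)| * |(b y : ℚ)| := by
    refine (Finset.abs_sum_le_sum_abs _ _).trans (Finset.sum_le_sum fun x hx => ?_)
    refine (Finset.abs_sum_le_sum_abs _ _).trans (Finset.sum_le_sum fun y hy => ?_)
    rw [abs_mul, abs_mul]
    have h2 := h x hx y hy
    have h3 : 0 ≤ |(a x : ℚ)| * |(b y : ℚ)| := by positivity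
    calc |(a x : ℚ)| * |(b y : ℚ)| * |k x y| ≤ |(a x : ℚ)| * |(b y : ℚ)| * C :=
          mul_le_mul_of_nonneg_left h2 h3
      _ = _ := by ring
  refine h1.trans (le_of_eq ?_)
  rw [mul_assoc, Finset.sum_mul_sum, Finset.mul_sum]
  refine Finset.sum_congr rfl fun x _ => ?_
  rw [Finset.mul_sum]
  refine Finset.sum_congr rfl fun y _ => ?_
  rw [mul_assoc, Nat.cast_natAbs, Nat.cast_natAbs, Int.cast_abs, Int.cast_abs]

lemma nrm_add_le {I : Type} (a b : I →₀ ℤ) : nrm (a + b) ≤ nrm a + nrm b := by
  classical
  have h : ∀ c : I →₀ ℤ, c.support ⊆ a.support ∪ b.support →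
      nrm c = ∑ x ∈ a.support ∪ b.support, (c x).natAbs := fun c hc => by
    unfold nrm
    exact Finsupp.sum_of_support_subset c hc _ (by simp)
  rw [h a Finset.subset_union_left, h b Finset.subset_union_right, h (a + b) Finsupp.support_add,
    ← Finset.sum_add_distrib]
  refine Finset.sum_le_sum fun x _ => ?_
  rw [Finsupp.add_apply]
  exact Int.natAbs_add_le _ _

lemma nrm_single {I : Type} (x : I) (m : ℤ) : nrm (Finsupp.single x m) = m.natAbs := by
  unfold nrm
  rw [Finsupp.sum_single_index (by simp)]

theorem t_MD : S_MD := by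
  classical
  intro I J p a
  induction a using Finsupp.induction with
  | zero => simp [nrm]
  | single_add x m g hx _ ih =>
    have h1 : nrm (Finsupp.single x m + g) = m.natAbs + nrm g := by
      rw [← nrm_single x m]
      unfold nrm
      refine Finsupp.sum_add_index_of_disjoint ?_ _
      rw [Finset.disjoint_left]
      intro y hy hy'
      have := Finsupp.support_single_subset hy
      rw [Finset.mem_singleton] at this
      subst this
      exact hx hy'
    rw [Finsupp.mapDomain_add, Finsupp.mapDomain_single, h1]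
    refine (nrm_add_le _ _).trans ?_
    rw [nrm_single]
    exact Nat.add_le_add_left ih _

end Pool.Agent.K1H4.EO
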